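import Pool.Agent.helper22.FI3.SpecCQ

/-!
# Project fi3, row JRG: the values on the `p`-regular classes determine the block
-/

set_option autoImplicit false

namespace Pool.Agent.FI3

open Pool.Agent.helper58.DC Pool.Agent.DI Pool.Agent.GR Pool.Agent.OB Pool.Agent.DR Pool.Agent.FI

open Classical in
/-- a function whose `cc` is the difference of the central characters, up to the value at `1` -/
noncomputable def JRG_xi {G : Type} [Group G] (ψ' ψ : G → ℂ) : G → ℂ :=
  fun x => ψ' x / ψ' 1 - ψ x / ψ 1 + if x = 1 then 1 else 0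

theorem JRG_cc {G : Type} [Group G] [Finite G] (ψ' ψ : G → ℂ) (h' : ψ' 1 ≠ 0) (h : ψ 1 ≠ 0) (z : G → ℂ) :
    cc (JRG_xi ψ' ψ) z = cc ψ' z - cc ψ z + z 1 := by
  classical
  have : Fintype G := Fintype.ofFinite G
  have h1 : JRG_xi ψ' ψ 1 = 1 := by
    simp [JRG_xi, div_self h, div_self h']
  unfold cc
  rw [h1, div_one]
  simp only [finsum_eq_sum_of_fintype]
  have e1 : ∀ x, z x * JRG_xi ψ' ψ x = z x * ψ' x / ψ' 1 - z x * ψ x / ψ 1 + if x = 1 then z 1 else 0 := by
    intro x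
    unfold JRG_xi
    by_cases hx : x = 1
    · subst hx
      rw [if_pos rfl, if_pos rfl]
      ring
    · rw [if_neg hx, if_neg hx]
      ring
  simp only [e1]
  rw [Finset.sum_add_distrib, Finset.sum_sub_distrib, ← Finset.sum_div, ← Finset.sum_div, Finset.sum_ite_eq',
    if_pos (Finset.mem_univ _)]

open Classical in
theorem JRG_cut {G : Type} [Group G] [Finite G] (ψ : G → ℂ) (h : ψ 1 ≠ 0) (z : G → ℂ) :
    cc ψ (fun x => if x = 1 then 0 else z x) = cc ψ z - z 1 := by
  have : Fintype G := Fintype.ofFinite G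
  unfold cc
  simp only [finsum_eq_sum_of_fintype]
  have e1 : ∀ x, (if x = 1 then 0 else z x) * ψ x = z x * ψ x - if x = 1 then z 1 * ψ 1 else 0 := by
    intro x
    by_cases hx : x = 1
    · subst hx
      rw [if_pos rfl, if_pos rfl]
      ring
    · rw [if_neg hx, if_neg hx]
      ring
  simp only [e1]
  rw [Finset.sum_sub_distrib, Finset.sum_ite_eq', if_pos (Finset.mem_univ _), sub_div, mul_div_assoc, div_self h, mul_one]

theorem JRG (hBLE : BLE_stmt) (hCLS : CLS_stmt) (hDCM : DCM_stmt) (hIF : IF_stmt) : JRG_stmt := by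
  intro p M hS G _ _ L ψ hψ ψ' hψ' hreg
  classical
  have h1 : ψ 1 ≠ 0 := by
    obtain ⟨⟨n, hn, hn'⟩, -, -⟩ := (hIF G L).2 ψ hψ
    rw [hn']
    exact_mod_cast hn.ne'
  have h1' : ψ' 1 ≠ 0 := by
    obtain ⟨⟨n, hn, hn'⟩, -, -⟩ := (hIF G L).2 ψ' hψ'
    rw [hn']
    exact_mod_cast hn.ne'
  obtain ⟨-, hCF, hint, -, hone, hzero, hnr, hB⟩ := hBLE p M hS G L L le_rfl ψ
  set e : G → ℂ := eS L (Bq M L L ψ) with he
  by_contra hcon
  have hψB : ψ ∈ Bq M L L ψ := by
    rw [hB]
    exact ⟨hψ, SB.refl _ _⟩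
  have hψB' : ψ' ∉ Bq M L L ψ := by
    rw [hB]
    exact fun h => hcon h.2
  have c1 := hone ψ hψB
  have c2 := hzero ψ' hψ' hψB'
  set e' : G → ℂ := fun x => if x = 1 then 0 else e x with he'
  have hcls : ∀ y, y ≠ 1 → cls L y 1 = 0 := by
    intro y hy
    rcases (hCLS G L y).2.2.2.2.1 1 with h | h
    · exact h
    · obtain ⟨l, -, hl⟩ := ((hCLS G L y).2.2.2.1 1).1 h
      exact absurd (conj_eq_one_iff.1 hl) hy
  have hccint : ∀ φ ∈ IrrOn L, ∀ y, IntAt M (cc φ (cls L y)) := fun φ hφ y =>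
    IntAt.of_isIntegral hS ((hCLS G L y).2.2.2.2.2.2.2.2 L le_rfl φ hφ)
  have key := ((hDCM G L M p hS).1 (JRG_xi ψ' ψ) e' (by
    intro l hl x
    simp only [he']
    by_cases hx : x = 1
    · subst hx
      simp
    · rw [if_neg hx, if_neg (fun h => hx (conj_eq_one_iff.1 h))]
      exact hCF.1 l hl x) (by
    intro x
    simp only [he']
    split_ifs
    · exact IntAt.zero hS
    · exact hint x) (by
    intro y
    rw [JRG_cc ψ' ψ h1' h1]
    exact IntAt.add hS (IntAt.sub hS (hccint ψ' hψ' y) (hccint ψ hψ y)) (IntAt.of_isIntegral hS ((hCLS G L y).2.2.1 1)))).2 (by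
    intro y
    by_cases hy1 : y = 1
    · left
      simp only [he']
      rw [if_pos hy1]
      exact InM.zero hS
    by_cases hyL : y ∈ L
    · by_cases hyr : PReg p y
      · right
        rw [JRG_cc ψ' ψ h1' h1, hcls y hy1, add_zero]
        exact hreg y hyL hyr
      · left
        simp only [he']
        rw [if_neg hy1, hnr y hyr]
        exact InM.zero hS
    · left
      simp only [he']
      rw [if_neg hy1, hCF.2 y hyL]
      exact InM.zero hS)
  rw [JRG_cc ψ' ψ h1' h1] at key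
  have k1 : cc ψ' e' = cc ψ' e - e 1 := JRG_cut ψ' h1' e
  have k2 : cc ψ e' = cc ψ e - e 1 := JRG_cut ψ h1 e
  have k3 : e' 1 = 0 := by simp [he']
  rw [k1, k2, k3, c1, c2] at key
  have k4 : (0 - e 1 - (1 - e 1) + 0 : ℂ) = -1 := by ring
  rw [k4] at key
  have k5 := InM.neg key
  rw [neg_neg] at k5
  exact InM.not_one hS k5

end Pool.Agent.FI3
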